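import Pool.Agent.Y262.EX.Stm

/-!
# Project EX of helper262: the quotient is a unit tangent bundle (`StQU`)
-/

set_option autoImplicit false

open Set Filter Topology MeasureTheory
open scoped ContDiff ComplexConjugate Real

noncomputable section

namespace Pool.Agent.Y145.EX

open Pool.Agent.Y262.EG Pool.Agent.Y262.EX

theorem germ_of {G M : Type} [Group G] [TopologicalSpace M] {Ω : Set ℂ} {a : G → ℂ → ℂ} {φ : ℂ → ℝ}
    {pr : ℂ → M} (hA : Act G Ω a) (hI : Inva Ω φ a) (hM : PrM Ω a pr) {p p' : Y} (hp : p ∈ YO Ω)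
    (g : G) (h1 : a g p.1 = p'.1)
    (h2 : Complex.exp (p'.2 * Complex.I) * ‖deriv (a g) p.1‖ =
      Complex.exp (p.2 * Complex.I) * deriv (a g) p.1) : Germ Ω φ pr p p' := by
  obtain ⟨r, hr, hrΩ⟩ := Metric.isOpen_iff.1 hA.opn p.1 hp
  refine ⟨r, a g, hr, hrΩ, (hA.hol g).mono hrΩ, h1, ?_, h2⟩
  intro ζ hζ
  have hζΩ := hrΩ hζ
  refine ⟨hA.maps g ζ hζΩ, ?_, (hI.2 g ζ hζΩ).1, (hI.2 g ζ hζΩ).2⟩
  exact ((hM.rel ζ hζΩ (a g ζ) (hA.maps g ζ hζΩ)).2 ⟨g, rfl⟩).symm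

theorem qU : StQU := by
  intro G _ Ω a φ M P _ _ _ _ pr q hA hI hM hP
  refine ⟨hA.opn, hI.1, hM.cont, hM.opn, hM.surj, hM.inj, hP.cont, hP.opn, hP.surj, ?_, ?_⟩
  · intro p hp p' hp'
    constructor
    · intro h
      obtain ⟨g, h1, h2⟩ := (hP.rel p hp p' hp').1 h
      exact germ_of hA hI hM hp g h1 h2
    · rintro ⟨r, γ, hr, hrΩ, hγd, hγp, hγ, hang⟩
      have hpb : p.1 ∈ Metric.ball p.1 r := Metric.mem_ball_self hr
      have hprp : pr p.1 = pr p'.1 := by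
        rw [← hγp]; exact (hγ p.1 hpb).2.1.symm
      obtain ⟨g, hg⟩ := (hM.rel p.1 hp p'.1 hp').1 hprp
      obtain ⟨ρ, hρ, -, hinj⟩ := hM.inj p'.1 hp'
      have hc1 : ContinuousAt γ p.1 :=
        (hγd.differentiableAt (Metric.ball_mem_nhds _ hr)).continuousAt
      have hc2 : ContinuousAt (a g) p.1 :=
        ((hA.hol g).differentiableAt (hA.opn.mem_nhds hp)).continuousAt
      have hn : Metric.ball p'.1 ρ ∈ 𝓝 p'.1 := Metric.ball_mem_nhds _ hρ
      have he : γ =ᶠ[𝓝 p.1] a g := by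
        have e1 : ∀ᶠ ζ in 𝓝 p.1, γ ζ ∈ Metric.ball p'.1 ρ := by
          apply hc1; rw [hγp]; exact hn
        have e2 : ∀ᶠ ζ in 𝓝 p.1, a g ζ ∈ Metric.ball p'.1 ρ := by
          apply hc2; rw [hg]; exact hn
        filter_upwards [e1, e2, Metric.ball_mem_nhds p.1 hr] with ζ h1 h2 h3
        apply hinj h1 h2
        rw [(hγ ζ h3).2.1]
        exact (hM.rel ζ (hrΩ h3) (a g ζ) (hA.maps g ζ (hrΩ h3))).2 ⟨g, rfl⟩
      apply (hP.rel p hp p' hp').2
      refine ⟨g, hg, ?_⟩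
      rw [← he.deriv_eq]
      exact hang
  · intro z hz w hw hzw θ
    obtain ⟨g, hg⟩ := (hM.rel z hz w hw).1 hzw
    refine ⟨θ + Complex.arg (deriv (a g) z), ?_⟩
    apply germ_of hA hI hM (p := (z, θ)) (p' := (w, θ + Complex.arg (deriv (a g) z))) hz g hg
    have h := Complex.norm_mul_exp_arg_mul_I (deriv (a g) z)
    show Complex.exp (((θ + Complex.arg (deriv (a g) z) : ℝ) : ℂ) * Complex.I) *
      (‖deriv (a g) z‖ : ℂ) = Complex.exp ((θ : ℂ) * Complex.I) * deriv (a g) z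
    push_cast
    rw [add_mul, Complex.exp_add]
    nth_rewrite 3 [← h]
    ring

end Pool.Agent.Y145.EX
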