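import Pool.Agent.Y262.EX.Stm

/-!
# Project EX of helper262: the coordinate change between the strip and the half plane (`StW`)
-/

set_option autoImplicit false

open Set Filter Topology MeasureTheory
open scoped ContDiff ComplexConjugate Real

noncomputable section

namespace Pool.Agent.Y145.EX

open Pool.Agent.Y262.EG Pool.Agent.Y262.EX

theorem log_pos' : 0 < Real.log (7 + 4 * Real.sqrt 3) := by
  apply Real.log_pos
  have := Real.sqrt_nonneg 3
  linarith

theorem L0_pos : 0 < L0 := by
  unfold L0
  have := log_pos'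
  positivity

theorem lam_pos : 0 < lam := by
  unfold lam
  have := L0_pos
  positivity

theorem lam_L0 : lam * L0 = π / 8 := by
  unfold lam
  have := L0_pos.ne'
  field_simp

theorem two_pi_lam : 2 * π * lam = 2 * Real.log (7 + 4 * Real.sqrt 3) := by
  unfold lam L0
  have := log_pos'.ne'
  have := Real.pi_ne_zero
  field_simp

theorem lamC_ne : (lam : ℂ) ≠ 0 := by exact_mod_cast lam_pos.ne'

/-- the exponent -/
theorem exponent (z : ℂ) : -(Complex.I * lam * (z - L0 / 2)) =
    ((lam * z.im : ℝ) : ℂ) + ((-(lam * (z.re - L0 / 2)) : ℝ) : ℂ) * Complex.I := by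
  apply Complex.ext <;> simp

theorem W_re_im (z : ℂ) : (W z).re = Real.exp (lam * z.im) * Real.sin (lam * (z.re - L0 / 2)) ∧
    (W z).im = Real.exp (lam * z.im) * Real.cos (lam * (z.re - L0 / 2)) := by
  unfold W
  rw [exponent, Complex.exp_add, Complex.exp_mul_I, ← Complex.ofReal_exp, ← Complex.ofReal_cos,
    ← Complex.ofReal_sin, Real.cos_neg, Real.sin_neg]
  generalize Real.exp (lam * z.im) = e
  generalize Real.cos (lam * (z.re - L0 / 2)) = c
  generalize Real.sin (lam * (z.re - L0 / 2)) = s
  constructor <;> simp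

theorem Om_eq : Om = {z : ℂ | |lam * (z.re - L0 / 2)| < π / 2} := by
  ext z
  unfold Om
  simp only [mem_ofPred_eq]
  rw [abs_lt]
  have h1 := lam_L0
  have h2 := lam_pos
  have h3 : π / 2 = lam * (4 * L0) := by linear_combination (-4) * h1
  rw [h3]
  constructor
  · rintro ⟨ha, hb⟩
    constructor
    · rw [← mul_neg]
      exact mul_lt_mul_of_pos_left (by linarith) h2
    · exact mul_lt_mul_of_pos_left (by linarith) h2
  · rintro ⟨ha, hb⟩
    rw [← mul_neg] at ha
    have ha' := lt_of_mul_lt_mul_left ha h2.le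
    have hb' := lt_of_mul_lt_mul_left hb h2.le
    constructor <;> linarith

theorem Stp_iff (z : ℂ) : z ∈ Stp L0 (3 / 2 * L0) ↔ |lam * (z.re - L0 / 2)| < π / 4 := by
  unfold Stp
  simp only [mem_ofPred_eq]
  rw [abs_lt]
  have h1 := lam_L0
  have h2 := lam_pos
  have h3 : π / 4 = lam * (2 * L0) := by linear_combination (-2) * h1
  rw [h3]
  constructor
  · rintro ⟨ha, hb⟩
    constructor
    · rw [← mul_neg]
      exact mul_lt_mul_of_pos_left (by linarith) h2
    · exact mul_lt_mul_of_pos_left (by linarith) h2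
  · rintro ⟨ha, hb⟩
    rw [← mul_neg] at ha
    have ha' := lt_of_mul_lt_mul_left ha h2.le
    have hb' := lt_of_mul_lt_mul_left hb h2.le
    constructor <;> linarith

theorem sin_lt_cos {t : ℝ} (ht : |t| < π / 2) : |Real.sin t| < Real.cos t ↔ |t| < π / 4 := by
  have hc : 0 < Real.cos t := Real.cos_pos_of_mem_Ioo ⟨(abs_lt.1 ht).1, (abs_lt.1 ht).2⟩
  have hpi := Real.pi_pos
  have h2 : |Real.sin t| < Real.cos t ↔ 0 < Real.cos (2 * t) := by
    rw [← abs_of_pos hc, ← sq_lt_sq, Real.cos_two_mul']
    constructor <;> intro h <;> linarith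
  rw [h2]
  constructor
  · intro h
    by_contra hlt
    rw [not_lt] at hlt
    have h3 : Real.cos (2 * t) = Real.cos (2 * |t|) := by
      rcases abs_cases t with ⟨h4, _⟩ | ⟨h4, _⟩ <;> rw [h4]
      rw [mul_neg, Real.cos_neg]
    rw [h3] at h
    have := Real.cos_nonpos_of_pi_div_two_le_of_le (x := 2 * |t|) (by linarith) (by linarith)
    linarith
  · intro h
    rw [abs_lt] at h
    exact Real.cos_pos_of_mem_Ioo ⟨by linarith [h.1], by linarith [h.2]⟩

theorem W_im_pos {z : ℂ} (hz : z ∈ Om) : 0 < (W z).im := by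
  rw [(W_re_im z).2]
  rw [Om_eq] at hz
  have hz' : |lam * (z.re - L0 / 2)| < π / 2 := hz
  exact mul_pos (Real.exp_pos _) (Real.cos_pos_of_mem_Ioo (by rw [abs_lt] at hz'; exact hz'))

theorem neg_I_mul_W (z : ℂ) : -(Complex.I * W z) = Complex.exp (-(Complex.I * lam * (z - L0 / 2))) := by
  unfold W
  rw [← mul_assoc, Complex.I_mul_I]
  ring

theorem Wi_W {z : ℂ} (hz : z ∈ Om) : Wi (W z) = z := by
  rw [Om_eq] at hz
  have hz' : |lam * (z.re - L0 / 2)| < π / 2 := hz
  rw [abs_lt] at hz'
  have hpi := Real.pi_pos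
  unfold Wi
  rw [neg_I_mul_W, Complex.log_exp]
  · have := lamC_ne
    field_simp
    linear_combination (-(2 * z - L0) : ℂ) * Complex.I_sq
  · rw [exponent]
    simp
    linarith [hz'.2]
  · rw [exponent]
    simp
    linarith [hz'.1]

theorem slit {w : ℂ} (hw : 0 < w.im) : 0 < (-(Complex.I * w)).re := by
  simpa using hw

theorem W_Wi {w : ℂ} (hw : 0 < w.im) : Wi w ∈ Om ∧ W (Wi w) = w := by
  have hs := slit hw
  have hne : -(Complex.I * w) ≠ 0 := by
    intro h
    rw [h] at hs
    simp at hs
  constructor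
  · rw [Om_eq]
    show |lam * ((Wi w).re - L0 / 2)| < π / 2
    have h1 : lam * ((Wi w).re - L0 / 2) = -Complex.arg (-(Complex.I * w)) := by
      have h2 : (lam : ℂ) * (Wi w - L0 / 2) = Complex.I * Complex.log (-(Complex.I * w)) := by
        unfold Wi
        have := lamC_ne
        field_simp
        ring
      have h3 := congrArg Complex.re h2
      rw [Complex.re_ofReal_mul] at h3
      have h4 : (Wi w - (L0 : ℂ) / 2).re = (Wi w).re - L0 / 2 := by simp
      rw [h4] at h3
      rw [h3]
      simp [Complex.log_im]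
    rw [h1, abs_neg]
    exact Complex.abs_arg_lt_pi_div_two_iff.2 (Or.inl hs)
  · unfold W
    have h1 : -(Complex.I * lam * (Wi w - L0 / 2)) = Complex.log (-(Complex.I * w)) := by
      unfold Wi
      have := lamC_ne
      field_simp
      linear_combination (-2 * Complex.log (-(Complex.I * w))) * Complex.I_sq
    rw [h1, Complex.exp_log hne]
    linear_combination (-w) * Complex.I_sq

theorem wT : StW := by
  refine ⟨L0_pos, lam_pos, fun z hz => ⟨W_im_pos hz, Wi_W hz⟩, fun w hw => W_Wi hw, ?_, ?_, Om_eq, ?_⟩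
  · intro z
    refine ⟨(W_re_im z).1, (W_re_im z).2, ?_, ?_, ?_⟩
    · unfold W
      have h1 : -(Complex.I * lam * (z + 2 * π * Complex.I - L0 / 2)) =
          -(Complex.I * lam * (z - L0 / 2)) + ((2 * π * lam : ℝ) : ℂ) := by
        push_cast
        linear_combination (-(2 * π * lam) : ℂ) * Complex.I_sq
      rw [h1, Complex.exp_add, two_pi_lam]
      have h2 : Complex.exp ((2 * Real.log (7 + 4 * Real.sqrt 3) : ℝ) : ℂ) =
          (((7 + 4 * Real.sqrt 3) ^ 2 : ℝ) : ℂ) := by
        rw [← Complex.ofReal_exp]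
        congr 1
        rw [two_mul, Real.exp_add, Real.exp_log]
        · ring
        · have := Real.sqrt_nonneg 3
          linarith
      rw [h2]
      ring
    · unfold W
      rw [map_mul, Complex.conj_I, ← Complex.exp_conj]
      have h1 : (starRingEnd ℂ) (-(Complex.I * lam * (z - L0 / 2))) =
          -(-(Complex.I * lam * ((starRingEnd ℂ) z - L0 / 2))) := by
        simp only [map_neg, map_mul, Complex.conj_I, map_sub, Complex.conj_ofReal, map_div₀]
        have : (starRingEnd ℂ) 2 = 2 := Complex.conj_ofNat 2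
        rw [this]
        ring
      rw [h1, mul_inv, ← Complex.exp_neg, neg_neg, inv_neg, Complex.inv_I, neg_neg]
    · have h1 : HasDerivAt (fun z : ℂ => -(Complex.I * lam * (z - L0 / 2))) (-(Complex.I * lam * 1)) z :=
        (((hasDerivAt_id z).sub_const _).const_mul _).neg
      have h2 := (h1.cexp).const_mul Complex.I
      refine HasDerivAt.congr_deriv h2 ?_
      unfold W
      ring
  · intro w hw
    have hs := slit hw
    have hw0 : w ≠ 0 := by
      rintro rfl
      simp at hw
    have h1 : HasDerivAt (fun w : ℂ => -(Complex.I * w)) (-(Complex.I * 1)) w :=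
      ((hasDerivAt_id w).const_mul _).neg
    have h2 := (h1.clog (Or.inl hs)).const_mul (Complex.I / lam)
    have h3 := h2.const_add ((L0 : ℂ) / 2)
    refine HasDerivAt.congr_deriv h3 ?_
    have := lamC_ne
    have hI := Complex.I_ne_zero
    field_simp
  · intro z hz
    rw [Stp_iff, (W_re_im z).1, (W_re_im z).2, abs_mul (Real.exp _), abs_of_pos (Real.exp_pos _),
      mul_lt_mul_iff_right₀ (Real.exp_pos _)]
    rw [Om_eq] at hz
    exact (sin_lt_cos hz).symm

end Pool.Agent.Y145.EX
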